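import Pool.Agent.MP_3e91a1_nt.CC.St1
import Pool.Agent.MP_384f6f_nt.AL.Core

/-! Few points have many bad primes. -/

set_option autoImplicit false

open Finset Filter

noncomputable section

namespace Pool.Agent.MP_3e91a1_nt.CC

open Pool.Agent.MP_384f6f_nt.AL

theorem pts_COR {e u : ℝ} {s K D n R : ℕ} (e0 : 0 ≤ e) (h1 : e ≤ 1) (kR : K ≤ R) (r0 : 1 ≤ R)
    (u0 : 0 < u) (hs : 7200 * (R : ℝ) ≤ e * s) (hD : (D : ℝ) + R ≤ 113 * u)
    (hn : e * u / 62 + R ≤ n) : R * (D + R) < (s - K) * (n - R) := by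
  have a1 : (s : ℝ) - K ≤ ((s - K : ℕ) : ℝ) := by
    rw [sub_le_iff_le_add]
    exact_mod_cast le_tsub_add
  have a2 : (n : ℝ) - R ≤ ((n - R : ℕ) : ℝ) := by
    rw [sub_le_iff_le_add]
    exact_mod_cast le_tsub_add
  have k1 : (K : ℝ) ≤ R := by exact_mod_cast kR
  have r1 : (1 : ℝ) ≤ R := by exact_mod_cast r0
  have a4 : 7100 * (R : ℝ) ≤ e * ((s - K : ℕ) : ℝ) := by
    have a6 := mul_le_mul_of_nonneg_left a1 e0
    have a7 := mul_le_mul_of_nonneg_right h1 (Nat.cast_nonneg (α := ℝ) K)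
    linarith
  have a5 := mul_le_mul_of_nonneg_left hD (Nat.cast_nonneg (α := ℝ) R)
  have a6 := mul_le_mul_of_nonneg_left (by linarith : e * u / 62 ≤ ((n - R : ℕ) : ℝ))
    (Nat.cast_nonneg (α := ℝ) (s - K))
  have a7 := mul_le_mul_of_nonneg_right a4 u0.le
  have a8 : 0 < (R : ℝ) * u := by positivity
  have a9 : (R : ℝ) * (D + R) < ((s - K : ℕ) : ℝ) * ((n - R : ℕ) : ℝ) := by linarith
  exact_mod_cast a9

open Classical in
theorem COR_pf (hDET : DET_st) : COR_st := by
  intro η M K h0 h1 hM hK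
  have m1 : (1 : ℝ) ≤ M := by exact_mod_cast hM
  have l1 : 2 ≤ Real.log (10 * M) := by
    have b1 : Real.log (2 ^ 3) ≤ Real.log (10 * M) := Real.log_le_log (by norm_num) (by linarith)
    rw [Real.log_pow] at b1
    have := Real.log_two_gt_d9
    push_cast at b1
    linarith
  have l0 : 0 ≤ Real.log (5 * M) := Real.log_nonneg (by linarith)
  have l2 : Real.log (5 * M) ≤ Real.log (10 * M) := Real.log_le_log (by linarith) (by linarith)
  have e2 : η ^ 2 ≤ η := by nlinarith
  have k0 : (0 : ℝ) ≤ K := Nat.cast_nonneg K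
  have k1 : 1400 ≤ η * K := by linarith [mul_le_mul_of_nonneg_right e2 k0]
  have k2 : (1400 : ℝ) ≤ K := by linarith [mul_le_mul_of_nonneg_right h1 k0]
  have k3 : (0 : ℝ) < K := by linarith
  have k4 : 700 * Real.log (10 * M) ≤ K := by
    linarith [mul_le_mul_of_nonneg_right (e2.trans h1) k0]
  filter_upwards [ev_lin (1 + (K + 1) ^ 5) (c := 1 / (η * K)) (by positivity),
    ev_lin (1 + (K + 1) ^ 5) (c := η / (3660 * (K + 1))) (by positivity),
    ev_lin (Real.log ((112 / η + 1) * (K + 1) ^ 3) + Real.log (10 * M) + K * Real.log (5 * M))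
      (c := η / 20) (by positivity),
    ev_log (c := η / (20 * (2 * K + 3))) (by positivity), eventually_ge_atTop 1]
    with x E1 E2 E3 E4 E5 P a hP hy
  by_contra hs
  push Not at hs
  have x1 : (1 : ℝ) ≤ x := by exact_mod_cast E5
  set u : ℝ := x / (η * K) with hu
  set v : ℝ := η * x / (K + 1) with hv
  have u0 : 0 < u := by positivity
  have v0 : 0 < v := by positivity
  have ux : η * K * u = x := by rw [hu]; field_simp
  have vx : v * (K + 1) = η * x := by rw [hv]; field_simp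
  replace E1 : 1 + (K + 1) ^ 5 ≤ u := E1.trans (le_of_eq (by rw [hu]; ring))
  replace E2 : 1 + (K + 1) ^ 5 ≤ v / 3660 := E2.trans (le_of_eq (by rw [hv]; field_simp))
  obtain ⟨D, D1, D2⟩ : ∃ D : ℕ, 112 * u ≤ D ∧ (D : ℝ) ≤ 112 * u + 1 :=
    ⟨⌈112 * u⌉₊, Nat.le_ceil _, (Nat.ceil_lt_add_one (by positivity)).le⟩
  obtain ⟨n, n1, n2⟩ : ∃ n : ℕ, (n : ℝ) ≤ v / 60 ∧ v / 60 ≤ n + 1 :=
    ⟨⌊v / 60⌋₊, Nat.floor_le (by positivity), (Nat.lt_floor_add_one _).le⟩
  have q0 : (1 : ℝ) ≤ (K + 1) ^ 5 := one_le_pow₀ (by linarith)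
  have n3 : (1 : ℝ) ≤ n := by linarith
  have n5 : n * (K + 1) ≤ η * x / 60 := by
    linarith [mul_le_mul_of_nonneg_right n1 (by linarith : (0 : ℝ) ≤ K + 1)]
  have c10 : (n : ℝ) * 1400 ≤ η * x / 60 := by
    linarith [mul_le_mul_of_nonneg_left k2 (Nat.cast_nonneg (α := ℝ) n)]
  have n4 : (n : ℝ) ≤ x := by linarith [mul_le_mul_of_nonneg_right h1 (Nat.cast_nonneg (α := ℝ) x)]
  have uv : η ^ 2 * u / 62 ≤ v / 61 := by
    have b0 : 0 ≤ η ^ 2 * u := by positivity
    have b1 := mul_le_mul_of_nonneg_left k2 b0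
    have b2 : η ^ 2 * u / 62 * (K + 1) ≤ v / 61 * (K + 1) := by
      have b3 : v * (K + 1) = η ^ 2 * u * K := by rw [vx, ← ux]; ring
      linarith
    exact le_of_mul_le_mul_right b2 (by linarith)
  have hz := pts_COR (e := η ^ 2) (u := u) (s := P.card) (K := K) (D := D) (n := n)
    (R := (K + 1) ^ 5) (sq_nonneg η) (e2.trans h1)
    ((Nat.le_succ K).trans (Nat.le_self_pow (by norm_num) _)) (Nat.one_le_pow _ _ K.succ_pos) u0
    (by push_cast; exact hs) (by push_cast; linarith) (by push_cast; linarith)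
  have hi := hDET P a M D K n (Nat.lcmUpto n) ((Ioc n x).filter Nat.Prime) (η * x - 7 / 5 * n)
    hM hP (Nat.lcmUpto_ne_zero n)
    (fun k k1 k2 => Finset.dvd_lcm (f := id) (mem_Icc.2 ⟨k1, k2.le⟩)) hz
    (fun p hp => ⟨(mem_filter.1 hp).2, (mem_Ioc.1 (mem_filter.1 hp).1).1.le⟩)
    fun T ha => by
      have b1 := sum_union_inter (s₁ := ((Ioc n x).filter Nat.Prime).filter
        fun p => Bad p (a T)) (s₂ := (Ioc 0 n).filter Nat.Prime)
        (f := fun p : ℕ => Real.log p)
      have b2 := sum_nonneg (s := (((Ioc n x).filter Nat.Prime).filter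
        fun p => Bad p (a T)) ∩ (Ioc 0 n).filter Nat.Prime)
        fun p _ => Real.log_natCast_nonneg p
      have b3 := (hy T ha).trans (sum_le_sum_of_subset_of_nonneg
        (t := (((Ioc n x).filter Nat.Prime).filter
          fun p => Bad p (a T)) ∪ (Ioc 0 n).filter Nat.Prime) (fun p hp => by
          simp only [mem_union, mem_filter, mem_Ioc] at hp ⊢
          by_cases hn : p ≤ n
          · exact Or.inr ⟨⟨hp.1.1.1, hn⟩, hp.1.2⟩
          · exact Or.inl ⟨⟨⟨not_le.1 hn, hp.1.1.2⟩, hp.1.2⟩, hp.2⟩)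
        fun p _ _ => Real.log_natCast_nonneg p)
      linarith [th_le n]
  set N : ℝ := D * (K + 1) ^ 3 with hN
  have d0 : (0 : ℝ) < D := by linarith
  have N0 : 0 < N := by positivity
  have c1 : ((D : ℝ) + 7 * K * x) * (2 * K + 1) ≤ η * N / 4 := by
    have c0 : η * K * 1 ≤ η * (K + 1) ^ 2 := by
      rw [mul_assoc]
      exact mul_le_mul_of_nonneg_left (by nlinarith only [k0]) h0.le
    have c2 : (D : ℝ) * 16 ≤ D * (η * (K + 1) ^ 2) := mul_le_mul_of_nonneg_left (by linarith) d0.le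
    have c3 : 112 * u * K ^ 2 ≤ D * (K + 1) ^ 2 := by gcongr; linarith
    have c4 := mul_le_mul_of_nonneg_left c3 h0.le
    have c5 : 2 * ((D : ℝ) + 7 * K * x) ≤ η * (D * (K + 1) ^ 2) / 4 := by
      rw [← ux]
      linarith
    have c6 := mul_le_mul_of_nonneg_right c5 (by linarith : (0 : ℝ) ≤ K + 1)
    have c7 : (0 : ℝ) ≤ D + 7 * K * x := by positivity
    rw [hN]
    linarith
  have c2 : ∑ p ∈ (Ioc n x).filter Nat.Prime, ((D + 7 * K * p) * (2 * K + 1) : ℝ) * Real.log p ≤
      η * N / 4 * (7 / 5 * x) := by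
    refine le_trans ?_ (mul_le_mul_of_nonneg_left (th_le x) (by positivity))
    rw [mul_sum]
    refine le_trans (sum_le_sum fun p hp => ?_) (sum_le_sum_of_subset_of_nonneg
      (filter_subset_filter _ (Ioc_subset_Ioc_left (Nat.zero_le n)))
      fun p _ _ => mul_nonneg (by positivity) (Real.log_natCast_nonneg p))
    refine mul_le_mul_of_nonneg_right (le_trans ?_ c1) (Real.log_natCast_nonneg p)
    have : (p : ℝ) ≤ x := by exact_mod_cast (mem_Ioc.1 (mem_filter.1 hp).1).2
    gcongr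
  have L0 : (0 : ℝ) < Nat.lcmUpto n := by exact_mod_cast Nat.lcmUpto_pos n
  have c3 : Real.log (N * ((10 * M) ^ D * (5 * M) ^ K * (n * Nat.lcmUpto n) ^ (2 * K + 2) *
      (5 * M) ^ (2 * n))) = Real.log N + D * Real.log (10 * M) + K * Real.log (5 * M) +
        (2 * K + 2) * Real.log n + (2 * K + 2) * Real.log (Nat.lcmUpto n) +
        2 * (n * Real.log (5 * M)) := by
    have n0 : (n : ℝ) ≠ 0 := by positivity
    clear_value N
    rw [Real.log_mul N0.ne' (by positivity), Real.log_mul (by positivity) (by positivity),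
      Real.log_mul (by positivity) (by positivity), Real.log_mul (by positivity) (by positivity),
      Real.log_pow, Real.log_pow, Real.log_pow, Real.log_pow, Real.log_mul n0 L0.ne']
    push_cast
    ring
  have c4 : Real.log N ≤ Real.log ((112 / η + 1) * (K + 1) ^ 3) + Real.log x := by
    rw [← Real.log_mul (by positivity) (by positivity)]
    refine Real.log_le_log N0 ?_
    have c5 : u ≤ x / η := by
      rw [hu]
      gcongr
      exact le_mul_of_one_le_right h0.le (by linarith)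
    rw [hN, mul_right_comm]
    refine mul_le_mul_of_nonneg_right ?_ (by positivity)
    rw [add_mul, div_mul_eq_mul_div, mul_div_assoc]
    linarith
  have c5 : (2 * K + 2) * Real.log n ≤ (2 * K + 2) * Real.log x := by gcongr
  have c6 : (2 * K + 3) * Real.log x ≤ η * x / 20 :=
    (mul_le_mul_of_nonneg_left E4 (by positivity)).trans (le_of_eq (by field_simp))
  have c7 : D * Real.log (10 * M) ≤ 16 / 100 * (η * x) + Real.log (10 * M) := by
    have c8 := mul_le_mul_of_nonneg_right D2 (by linarith : 0 ≤ Real.log (10 * M))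
    have c9 := mul_le_mul_of_nonneg_left hK u0.le
    rw [← ux]
    linarith
  have c9 : (2 * K + 2) * Real.log (Nat.lcmUpto n) ≤ 18 / 100 * (η * x) := by
    linarith [mul_le_mul_of_nonneg_left (lcm_le n) (by linarith : (0 : ℝ) ≤ 2 * K + 2)]
  have c11 : n * Real.log (5 * M) ≤ η * x / 1000 := by
    linarith [mul_le_mul_of_nonneg_left (by linarith : 700 * Real.log (5 * M) ≤ K + 1)
      (Nat.cast_nonneg (α := ℝ) n)]
  have c12 : 0 < η * x := by positivity
  rw [c3] at hi
  have c13 : Real.log N + D * Real.log (10 * M) + K * Real.log (5 * M) +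
      (2 * K + 2) * Real.log n + (2 * K + 2) * Real.log (Nat.lcmUpto n) +
      2 * (n * Real.log (5 * M)) ≤ 45 / 100 * (η * x) := by
    linarith
  have c14 := mul_le_mul_of_nonneg_left c13 N0.le
  have c15 : N * (η * x - 7 / 5 * n) ≤ N * (80 / 100 * (η * x)) := by linarith
  have c16 := le_of_mul_le_mul_left c15 N0
  linarith

end Pool.Agent.MP_3e91a1_nt.CC
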