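import Pool.Agent.MP_3e91a1_nt.CC.St2

/-! The cubic field. -/

set_option autoImplicit false

open NumberField Module Polynomial

namespace Pool.Agent.MP_3e91a1_nt.CC

theorem monic_CUB {R : Type} [CommRing R] [Nontrivial R] (T : R) :
    (X ^ 3 + C T * X + C T : R[X]).Monic ∧ (X ^ 3 + C T * X + C T : R[X]).natDegree = 3 :=
  ⟨by monicity!, by compute_degree!⟩

theorem irr_CUB {T : ℕ} (hT : 1 ≤ T) :
    Irreducible (X ^ 3 + C (T : ℚ) * X + C (T : ℚ) : ℚ[X]) := by
  have hd := (monic_CUB (T : ℚ)).2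
  rw [irreducible_iff_roots_eq_zero_of_degree_le_three (by omega) (by omega),
    Multiset.eq_zero_iff_forall_notMem]
  intro r hr
  have h1 : r ^ 3 + T * r + T = 0 := by
    have := (mem_roots (monic_CUB (T : ℚ)).1.ne_zero).1 hr
    simpa using this
  obtain ⟨m, hm⟩ := isInteger_of_is_root_of_monic (K := ℚ) (monic_CUB (T : ℤ)).1 (r := r)
    (by simpa using h1)
  have h2 : m ^ 3 + T * m + T = 0 := by
    rw [← hm] at h1
    simp only [eq_intCast] at h1
    exact_mod_cast h1
  have h3 : (m + 1) * (m ^ 2 - m + 1 + T) = 1 := by linear_combination h2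
  have hT' : (1 : ℤ) ≤ T := by exact_mod_cast hT
  rcases Int.eq_one_or_neg_one_of_mul_eq_one' h3 with ⟨h4, h5⟩ | ⟨h4, h5⟩
  · have : m = 0 := by omega
    rw [this] at h5
    omega
  · have : m = -2 := by omega
    rw [this] at h5
    omega

theorem real_CUB {T a b : ℝ} (hT : 1 ≤ T) (ha : a ^ 3 + T * a + T = 0)
    (hb : b ^ 3 + T * b + T = 0) : a = b := by
  have h : (a - b) * (a ^ 2 + a * b + b ^ 2 + T) = 0 := by linear_combination ha - hb
  refine sub_eq_zero.1 ((mul_eq_zero.1 h).resolve_right (ne_of_gt ?_))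
  nlinarith [sq_nonneg (a + b), sq_nonneg a, sq_nonneg b]

theorem CUB_pf : CUB_st := by
  intro T w hT hw
  have hZ : IsIntegral ℤ w := ⟨_, (monic_CUB (T : ℤ)).1, by
    rw [← aeval_def]; simpa using hw⟩
  have hQ : IsIntegral ℚ w := hZ.tower_top
  have hm : minpoly ℚ w = X ^ 3 + C (T : ℚ) * X + C (T : ℚ) :=
    (minpoly.eq_of_irreducible_of_monic (irr_CUB hT) (by simpa using hw) (monic_CUB _).1).symm
  have hf : finrank ℚ (IntermediateField.adjoin ℚ {w}) = 3 := by
    rw [IntermediateField.adjoin.finrank hQ, hm, (monic_CUB _).2]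
  have hi : (1 + w) * (w ^ 2 - w + 1 + T) = 1 := by linear_combination hw
  refine ⟨hf, ?_, hZ, ?_, left_ne_zero_of_mul_eq_one hi, fun w' hw' => ?_⟩
  · have := IntermediateField.adjoin.finiteDimensional hQ
    have : NumberField (IntermediateField.adjoin ℚ {w}) := ⟨⟩
    by_contra hc
    push Not at hc
    have hcard := Embeddings.card (IntermediateField.adjoin ℚ {w}) ℂ
    rw [hf] at hcard
    obtain ⟨φ, ψ, hne⟩ := Fintype.exists_pair_of_one_lt_card (by rw [hcard]; norm_num :
      1 < Fintype.card (IntermediateField.adjoin ℚ {w} →+* ℂ))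
    have hg : IntermediateField.AdjoinSimple.gen ℚ w ^ 3 +
        T * IntermediateField.AdjoinSimple.gen ℚ w + T = 0 := Subtype.ext (by simpa using hw)
    have key : ∀ χ : IntermediateField.adjoin ℚ {w} →+* ℝ,
        χ (IntermediateField.AdjoinSimple.gen ℚ w) ^ 3 +
          T * χ (IntermediateField.AdjoinSimple.gen ℚ w) + T = 0 := by
      intro χ
      simpa using congrArg χ hg
    have he := real_CUB (by exact_mod_cast hT) (key (hc φ).embedding) (key (hc ψ).embedding)
    have he' : φ (IntermediateField.AdjoinSimple.gen ℚ w) =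
        ψ (IntermediateField.AdjoinSimple.gen ℚ w) := by
      rw [← (hc φ).coe_embedding_apply, ← (hc ψ).coe_embedding_apply, he]
    apply hne
    have := (IntermediateField.adjoin.powerBasis hQ).algHom_ext
      (f := φ.toRatAlgHom) (g := ψ.toRatAlgHom) he'
    exact RingHom.ext fun x => DFunLike.congr_fun this x
  · rw [inv_eq_of_mul_eq_one_right hi]
    exact (((hZ.pow 2).sub hZ).add isIntegral_one).add (isIntegral_natCast T)
  · have : IsAlgClosure ℚ (AlgebraicClosure ℚ) := AlgebraicClosure.instIsAlgClosure ℚ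
    have : Normal ℚ (AlgebraicClosure ℚ) := IsAlgClosure.normal ℚ _
    exact minpoly.exists_algEquiv_of_root' hQ.isAlgebraic (by rw [hm]; simpa using hw')

end Pool.Agent.MP_3e91a1_nt.CC
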