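import Pool.Agent.MP_3e91a1_nt.CC.St

/-! Two consecutive roots of unity modulo `p ^ 2`. -/

set_option autoImplicit false

open NumberField

namespace Pool.Agent.MP_3e91a1_nt.CC

theorem step_FRB {S : Type} [CommRing S] {P : Ideal S} (hP : P.IsPrime) {p E : ℕ}
    (hp : p.Prime) (hE : ¬ p ∣ E) (h0 : (p : S) ∈ P) {A B : S} (hAB : B - A ∈ P)
    (hA : (p : S) ^ 2 ∣ A ^ E - 1) (hB : (p : S) ^ 2 ∣ B ^ E - 1) :
    ∃ s, s ∉ P ∧ (p : S) ^ 2 ∣ s * (A - B) := by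
  refine ⟨∑ i ∈ Finset.range E, A ^ i * B ^ (E - 1 - i), fun h => ?_, ?_⟩
  · have h1 : Ideal.Quotient.mk P B = Ideal.Quotient.mk P A := Ideal.Quotient.eq.2 hAB
    have h2 := Ideal.Quotient.eq_zero_iff_mem.2 h
    simp only [map_sum, map_mul, map_pow, h1, geom_sum₂_self] at h2
    have h3 : Ideal.Quotient.mk P A ^ E = 1 := by
      have h4 : A ^ E - 1 ∈ P :=
        P.mem_of_dvd hA (P.pow_mem_of_mem h0 2 two_pos)
      simpa using Ideal.Quotient.eq.2 h4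
    have hE0 : E ≠ 0 := fun e => hE (e ▸ dvd_zero p)
    have h5 : ((E : ℕ) : S ⧸ P) = 0 := by
      have h6 := congrArg (· * Ideal.Quotient.mk P A) h2
      simp only [mul_assoc, pow_sub_one_mul hE0, h3, mul_one, zero_mul] at h6
      exact h6
    have h7 : ((p : ℕ) : S ⧸ P) = 0 := by simpa using Ideal.Quotient.eq_zero_iff_mem.2 h0
    obtain ⟨u, v, h8⟩ := (Nat.isCoprime_iff_coprime.2 ((Nat.Prime.coprime_iff_not_dvd hp).2 hE)).map
      (Int.castRingHom (S ⧸ P))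
    simp only [map_natCast, h5, h7, mul_zero, add_zero] at h8
    exact zero_ne_one h8
  · rw [geom_sum₂_mul]
    simpa using dvd_sub hA hB

theorem FRB_pf : FRB_st := by
  intro p E M _ _ _ a hp hE h1 h2
  by_contra h3
  let I : Ideal (𝓞 M) := (Ideal.span {(p : 𝓞 M) ^ 2}).colon {(1 + a) ^ p - 1 - a ^ p}
  have hI : ∀ s, s ∈ I ↔ (p : 𝓞 M) ^ 2 ∣ s * ((1 + a) ^ p - 1 - a ^ p) := fun s => by
    simp [I, Ideal.mem_span_singleton]
  obtain ⟨P, hP, h4⟩ := I.exists_le_maximal fun e => h3 (by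
    simpa using (hI 1).1 (e ▸ Submodule.mem_top))
  have hP' := hP.isPrime
  have h0 : (p : 𝓞 M) ∈ P := hP'.mem_of_pow_mem 2 (h4 ((hI _).2 (dvd_mul_right _ _)))
  have hne : P ≠ ⊥ := fun e => by
    rw [e, Ideal.mem_bot] at h0
    exact hp.ne_zero (Nat.cast_eq_zero.1 h0)
  have : Finite (𝓞 M ⧸ P) := P.finiteQuotientOfFreeOfNeBot hne
  obtain ⟨σ, hσ⟩ := IsArithFrobAt.exists_of_isInvariant ℤ (M ≃ₐ[ℚ] M) P
  have hu : Ideal.span {(p : ℤ)} = P.under ℤ := by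
    have := Fact.mk hp
    refine (Int.ideal_span_isMaximal_of_prime p).eq_of_le (Ideal.IsPrime.under ℤ P).ne_top ?_
    rw [Ideal.span_singleton_le_iff_mem, Ideal.mem_comap]
    simpa using h0
  have hc : Nat.card (ℤ ⧸ P.under ℤ) = p := by rw [← hu, Int.card_ideal_quot]
  have key : ∀ x : 𝓞 M, (p : 𝓞 M) ^ 2 ∣ x ^ E - 1 → ∃ s, s ∉ P ∧ (p : 𝓞 M) ^ 2 ∣
      s * (x ^ p - MulSemiringAction.toAlgHom ℤ (𝓞 M) σ x) := fun x hx => by
    refine step_FRB hP' hp hE h0 (hc ▸ hσ x) (hx.trans ?_) ?_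
    · rw [← pow_mul, mul_comm, pow_mul]
      exact sub_one_dvd_pow_sub_one _ _
    · simpa only [map_pow, map_natCast, map_sub, map_one] using
        map_dvd (MulSemiringAction.toAlgHom ℤ (𝓞 M) σ) hx
  obtain ⟨s, hs, h5⟩ := key a h1
  obtain ⟨t, ht, h6⟩ := key (1 + a) h2
  refine (hP'.mem_or_mem (h4 ((hI (s * t)).2 ?_))).elim hs ht
  rw [map_add, map_one] at h6
  refine (dvd_sub (h6.mul_left s) (h5.mul_left t)).trans (dvd_of_eq ?_)
  ring

end Pool.Agent.MP_3e91a1_nt.CC
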