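import Pool.Agent.MP_3e91a1_nt.CC.St1

/-! The coordinate and the two logarithms are algebraically independent. -/

set_option autoImplicit false

open Polynomial

namespace Pool.Agent.MP_3e91a1_nt.CC

theorem nonint_IND {B : Type} [CommRing B] [IsDomain B] [WfDvdMonoid B] (Θ : B → B)
    (hm : ∀ x y, Θ (x * y) = x * Θ y + y * Θ x) {π ε : B} (hπ : Prime π) (h1 : ∀ b, π ∣ Θ b)
    (h2 : Θ π = π * ε) (h3 : ∀ n : ℕ, ¬ π ∣ ((n : B) + 1) * ε) (J : ℕ) {P Q : B} (hQ : Q ≠ 0) :
    Q * (Θ P + ε * (Q * ((J : B) + 1))) - Θ Q * P ≠ 0 := by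
  intro H
  have e : ∀ (m : ℕ) (c : B), Θ (π ^ m * c) = π ^ m * ((m : B) * ε * c + Θ c) := by
    intro m c
    induction m with
    | zero => simp
    | succ m ih =>
      rw [pow_succ', mul_assoc, hm, ih, h2]
      push_cast
      ring
  obtain ⟨m, Q1, hQ2, rfl⟩ := WfDvdMonoid.max_power_factor' hQ hπ.not_isUnit
  obtain ⟨q, hq⟩ := h1 Q1
  by_cases hP : π ^ m ∣ P
  · obtain ⟨P1, rfl⟩ := hP
    obtain ⟨p, hp⟩ := h1 P1
    rw [e, e, hp, hq] at H
    have h4 : π ^ (m + m) * (π * (Q1 * p - q * P1) + ((J : B) + 1) * ε * Q1 * Q1) = 0 := by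
      linear_combination H
    have h5 := (mul_eq_zero.1 h4).resolve_left (pow_ne_zero _ hπ.ne_zero)
    have h6 : π ∣ ((J : B) + 1) * ε * Q1 * Q1 := ⟨q * P1 - Q1 * p, by linear_combination h5⟩
    exact h3 J ((hπ.dvd_or_dvd ((hπ.dvd_or_dvd h6).resolve_right hQ2)).resolve_right hQ2)
  · have hP0 : P ≠ 0 := fun h => hP (h ▸ dvd_zero _)
    obtain ⟨k, P1, hP2, rfl⟩ := WfDvdMonoid.max_power_factor' hP0 hπ.not_isUnit
    obtain ⟨d, rfl⟩ : ∃ d, m = k + (d + 1) := by
      refine ⟨m - k - 1, ?_⟩
      by_contra h4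
      exact hP ((pow_dvd_pow π (by omega)).mul_right _)
    obtain ⟨p, hp⟩ := h1 P1
    rw [e, e, hp, hq] at H
    have h4 : π ^ (k + (k + (d + 1))) * (π * (Q1 * p - q * P1 +
        π ^ d * (((J : B) + 1) * ε * Q1 * Q1)) - ((d : B) + 1) * ε * Q1 * P1) = 0 := by
      push_cast at H
      linear_combination H
    have h5 := (mul_eq_zero.1 h4).resolve_left (pow_ne_zero _ hπ.ne_zero)
    have h6 : π ∣ ((d : B) + 1) * ε * Q1 * P1 := ⟨_, (sub_eq_zero.1 h5).symm⟩
    exact h3 d ((hπ.dvd_or_dvd ((hπ.dvd_or_dvd h6).resolve_right hP2)).resolve_right hQ2)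

theorem inj_IND {R B E : Type} [CommRing R] [CommRing B] [IsDomain B] [WfDvdMonoid B] [CommRing E]
    [Algebra R E] (D : Derivation R E E) (φ : B →+* E) (hi : Function.Injective φ) {π ε : B}
    (hπ : Prime π) (h1 : ∀ b, ∃ c, D (φ b) = φ (π * c)) (h2 : D (φ π) = φ (π * ε)) (l : E)
    (hl : D l = φ ε) (h3 : ∀ n : ℕ, ¬ π ∣ ((n : B) + 1) * ε) :
    Function.Injective (eval₂RingHom φ l) := by
  have h1' : ∀ b, ∃ c, π ∣ c ∧ D (φ b) = φ c := fun b =>
    (h1 b).elim fun c hc => ⟨_, dvd_mul_right _ _, hc⟩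
  choose Θ hd hφ using h1'
  have h0 : Θ 0 = 0 := hi (by rw [← hφ]; simp)
  have ha : ∀ x y, Θ (x + y) = Θ x + Θ y := fun x y => hi (by
    rw [map_add, ← hφ, ← hφ, ← hφ, map_add, map_add])
  have hm : ∀ x y, Θ (x * y) = x * Θ y + y * Θ x := fun x y => hi (by
    rw [map_add, map_mul, map_mul, ← hφ, ← hφ, ← hφ, map_mul, Derivation.leibniz, smul_eq_mul,
      smul_eq_mul])
  have hp : Θ π = π * ε := hi (by rw [← hφ, h2])
  have ex : ∀ G : B[X], ∃ H : B[X], (∀ j, H.coeff j = Θ (G.coeff j)) ∧
      D (eval₂ φ l G) = eval₂ φ l (H + C ε * derivative G) := by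
    intro G
    induction G using Polynomial.induction_on' with
    | add p q hp hq =>
      obtain ⟨H1, a1, b1⟩ := hp
      obtain ⟨H2, a2, b2⟩ := hq
      refine ⟨H1 + H2, fun j => by rw [coeff_add, coeff_add, ha, a1, a2], ?_⟩
      rw [eval₂_add, map_add, b1, b2, ← eval₂_add, map_add]
      congr 1
      ring
    | monomial n c =>
      refine ⟨monomial n (Θ c), fun j => ?_, ?_⟩
      · rw [coeff_monomial, coeff_monomial]
        split_ifs
        · rfl
        · exact h0.symm
      · rw [derivative_monomial, eval₂_add, eval₂_mul, eval₂_C, eval₂_monomial, eval₂_monomial,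
          eval₂_monomial, Derivation.leibniz, Derivation.leibniz_pow, hφ, hl, map_mul, map_natCast]
        simp only [smul_eq_mul, nsmul_eq_mul]
        ring
  have key : ∀ (J : ℕ) (G : B[X]), G.natDegree = J → eval₂ φ l G = 0 → G = 0 := by
    intro J
    induction J using Nat.strong_induction_on with
    | _ J ih =>
      intro G hG hz
      rcases J with _ | J
      · rw [eq_C_of_natDegree_eq_zero hG] at hz ⊢
        rw [eval₂_C] at hz
        rw [(injective_iff_map_eq_zero φ).1 hi _ hz, C_0]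
      by_contra hG0
      have hQ : G.coeff (J + 1) ≠ 0 := by
        rw [← hG]
        exact leadingCoeff_ne_zero.2 hG0
      obtain ⟨H, a1, b1⟩ := ex G
      set G1 := C (G.coeff (J + 1)) * (H + C ε * derivative G) - C (Θ (G.coeff (J + 1))) * G
        with hG1
      have h4 : G1.natDegree ≤ J := by
        refine natDegree_le_iff_coeff_eq_zero.2 fun j hj => ?_
        rw [hG1, coeff_sub, coeff_C_mul, coeff_C_mul, coeff_add, coeff_C_mul, coeff_derivative, a1,
          coeff_eq_zero_of_natDegree_lt (p := G) (n := j + 1) (by omega)]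
        rcases (Nat.succ_le_of_lt hj).eq_or_lt with rfl | h5
        · ring
        · rw [coeff_eq_zero_of_natDegree_lt (p := G) (n := j) (by omega), h0]
          ring
      have h5 := ih _ (Nat.lt_succ_of_le h4) G1 rfl (by
        rw [hG1, eval₂_sub, eval₂_mul, eval₂_mul, ← b1, hz]
        simp)
      have h6 := congrArg (coeff · J) h5
      simp only [hG1, coeff_sub, coeff_C_mul, coeff_add, coeff_derivative, a1, coeff_zero] at h6
      exact nonint_IND Θ hm hπ hd hp h3 J hQ h6
  exact (injective_iff_map_eq_zero _).2 fun G hG => key _ G rfl hG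

theorem step_IND {R B E : Type} [CommRing R] [CommRing B] [CommRing E] [Algebra R E]
    (D : Derivation R E E) (φ : B →+* E) (l : E) (π : B[X])
    (h1 : ∀ b, ∃ c, D (φ b) = eval₂RingHom φ l (π * c)) (h2 : ∃ c, D l = eval₂RingHom φ l (π * c))
    (G : B[X]) : ∃ c, D (eval₂RingHom φ l G) = eval₂RingHom φ l (π * c) := by
  induction G using Polynomial.induction_on with
  | C b => simpa using h1 b
  | add p q hp hq =>
    obtain ⟨c1, b1⟩ := hp
    obtain ⟨c2, b2⟩ := hq
    exact ⟨c1 + c2, by rw [map_add, map_add, b1, b2, mul_add, map_add]⟩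
  | monomial n b ih =>
    obtain ⟨c1, b1⟩ := ih
    obtain ⟨c2, b2⟩ := h2
    refine ⟨C b * X ^ n * c2 + X * c1, ?_⟩
    have hX : eval₂RingHom φ l X = l := eval₂_X _ _
    rw [pow_succ, ← mul_assoc, map_mul, Derivation.leibniz, b1, hX, b2]
    simp only [smul_eq_mul, map_mul, map_add, hX]
    ring

theorem lg_IND {F : Type} [Field F] [CharZero F] (b : F) :
    (1 + PowerSeries.C b * PowerSeries.X) * PowerSeries.derivative F (lg b) = PowerSeries.C b := by
  have h : ∀ k, PowerSeries.coeff k (PowerSeries.derivative F (lg b)) = (-1) ^ k * b ^ (k + 1) := by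
    intro k
    have : (k : F) + 1 ≠ 0 := Nat.cast_add_one_ne_zero k
    rw [PowerSeries.coeff_derivative, lg, PowerSeries.coeff_mk]
    push_cast
    field_simp
    ring
  ext k
  rw [add_mul, one_mul, mul_assoc, map_add, PowerSeries.coeff_C_mul, h]
  rcases k with _ | k
  · simp
  · rw [PowerSeries.coeff_succ_X_mul, h, PowerSeries.coeff_C, if_neg (Nat.succ_ne_zero k)]
    ring

theorem zero_IND {F : Type} [Field F] (a c : F) (hc : c ≠ 0) : Function.Injective
    (eval₂RingHom (PowerSeries.C (R := F)) (PowerSeries.C a + PowerSeries.C c * PowerSeries.X)) := by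
  have e : eval₂RingHom (PowerSeries.C (R := F))
      (PowerSeries.C a + PowerSeries.C c * PowerSeries.X) =
      coeToPowerSeries.ringHom.comp (compRingHom (C c * X + C a)) := by
    refine ringHom_ext (fun r => ?_) ?_
    · simp
    · simp [add_comm]
  rw [e]
  refine (injective_iff_map_eq_zero _).2 fun q hq => ?_
  have h1 : q.comp (C c * X + C a) = 0 := coe_injective F (by simpa using hq)
  rcases comp_eq_zero_iff.1 h1 with h | ⟨-, h⟩
  · exact h
  · have := congrArg (coeff · 1) h
    simp [hc] at this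

/-- from three variables to iterated polynomials -/
noncomputable def rho_IND (F : Type) [CommRing F] : MvPolynomial (Fin 3) F →+* F[X][X][X] :=
  MvPolynomial.eval₂Hom (S₁ := F[X][X][X]) (C.comp (C.comp C)) ![C (C X), C X, X]

theorem comp_IND {F E : Type} [CommRing F] [CommRing E] (f : F →+* E) (v : Fin 3 → E) :
    (eval₂RingHom (eval₂RingHom (eval₂RingHom f (v 0)) (v 1)) (v 2)).comp (rho_IND F) =
      MvPolynomial.eval₂Hom f v := by
  refine MvPolynomial.ringHom_ext (fun r => by simp [rho_IND]) fun i => ?_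
  fin_cases i <;> simp [rho_IND]

theorem IND_pf : IND_st := by
  intro F _ _ a h0 h1
  let D : Derivation F (PowerSeries F) (PowerSeries F) :=
    ((1 + PowerSeries.C a * PowerSeries.X) * (1 + PowerSeries.C (1 + a) * PowerSeries.X)) •
      PowerSeries.derivative F
  have hD : ∀ f, D f = (1 + PowerSeries.C a * PowerSeries.X) *
      (1 + PowerSeries.C (1 + a) * PowerSeries.X) * PowerSeries.derivative F f := fun f => rfl
  have d0 : ∀ r : F, D (PowerSeries.C r) = 0 := fun r => by
    rw [hD, PowerSeries.derivative_C, mul_zero]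
  have d1 : D (Xs a) = Xs a * (Xs a + 1) := by
    rw [Xs, map_add, d0, Derivation.leibniz, d0, hD, PowerSeries.derivative_X]
    simp only [map_mul, map_add, map_one, smul_eq_mul]
    ring
  have d2 : D (lg (1 + a)) = Xs a + 1 := by
    rw [hD, mul_assoc, lg_IND, Xs]
    simp only [map_mul, map_add, map_one]
    ring
  have d3 : D (lg a) = Xs a := by
    rw [hD, mul_comm (1 + PowerSeries.C a * PowerSeries.X), mul_assoc, lg_IND, Xs]
    simp only [map_mul, map_add, map_one]
    ring
  have i0 : Function.Injective (eval₂RingHom (PowerSeries.C (R := F)) (Xs a)) :=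
    zero_IND a _ (mul_ne_zero h0 h1)
  have s0 := step_IND D (PowerSeries.C (R := F)) (Xs a) (X * (X + 1))
    (fun b => ⟨0, by simp [d0]⟩) ⟨1, by simp [d1]⟩
  have i1 := inj_IND D _ i0 (π := X) (ε := X + 1) prime_X
    (fun b => (s0 b).elim fun c hc => ⟨(X + 1) * c, by rw [hc, mul_assoc]⟩) (by simp [d1])
    (lg (1 + a)) (by simp [d2]) (fun n h => by
      rw [X_dvd_iff, coeff_zero_eq_eval_zero] at h
      simp [Nat.cast_add_one_ne_zero] at h)
  have s1 := step_IND D (eval₂RingHom (PowerSeries.C (R := F)) (Xs a)) (lg (1 + a)) (C (X + 1))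
    (fun b => (s0 b).elim fun c hc => ⟨C (X * c), by rw [hc]; simp; ring⟩) ⟨1, by simp [d2]⟩
  have hp : Prime (X + 1 : F[X]) := by
    simpa using prime_X_sub_C (-1 : F)
  have i2 := inj_IND D _ i1 (π := C (X + 1)) (ε := C X) (prime_C_iff.2 hp) s1
    (by simp [d1]; ring) (lg a) (by simp [d3]) (fun n h => by
      have h2 := map_dvd ((evalRingHom (-1 : F)).comp (evalRingHom (0 : F[X]))) h
      simp at h2
      exact Nat.cast_add_one_ne_zero (R := F) n (by linear_combination -h2))
  have e1 := comp_IND (PowerSeries.C (R := F)) ![Xs a, lg (1 + a), lg a]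
  have e2 := comp_IND (MvPolynomial.C : F →+* MvPolynomial (Fin 3) F) MvPolynomial.X
  rw [algebraicIndependent_iff]
  intro p hp0
  have h2 : rho_IND F p = 0 :=
    (injective_iff_map_eq_zero _).1 i2 _ ((RingHom.congr_fun e1 p).trans hp0)
  have h3 := RingHom.congr_fun e2 p
  rw [RingHom.comp_apply, h2, map_zero] at h3
  simpa using h3.symm

end Pool.Agent.MP_3e91a1_nt.CC
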