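import Pool.Agent.MP_3e91a1_nt.CC.St1

set_option autoImplicit false

namespace Pool.Agent.MP_3e91a1_nt.CC

theorem norm_PTS {T : ℕ} {s : ℂ} (hT : 1 ≤ T) (h : (T : ℂ) * s ^ 2 = -(s + 1) ^ 3) :
    ‖s‖ ≤ 5 * T := by
  have hT' : (1 : ℝ) ≤ T := by exact_mod_cast hT
  by_contra hc
  rw [not_le] at hc
  have h1 : (T : ℝ) * ‖s‖ ^ 2 = ‖s + 1‖ ^ 3 := by
    have := congrArg norm h
    rwa [norm_mul, norm_neg, norm_pow, norm_pow, Complex.norm_natCast] at this
  have h2 : ‖s‖ - 1 ≤ ‖s + 1‖ := by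
    have := norm_sub_le (s + 1) 1
    rw [add_sub_cancel_right, norm_one] at this
    linarith
  have h3 : (‖s‖ - 1) ^ 3 ≤ ‖s + 1‖ ^ 3 := pow_le_pow_left₀ (by linarith) h2 3
  have h4 : 0 ≤ ‖s‖ ^ 2 * (‖s‖ - 3 - T) := mul_nonneg (sq_nonneg _) (by linarith)
  nlinarith

theorem both_PTS {x y B : ℝ} (hB : 5 ≤ B) (h1 : x - 1 ≤ y) (h : x * y ≤ B) : x ≤ B := by
  by_contra hc
  rw [not_le] at hc
  nlinarith

theorem int_PTS {F : Type} [Field F] {T : ℕ} {a : F} (h : Rel (T : F) a) : IsIntegral ℤ a := by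
  refine ⟨(Polynomial.X ^ 2 + Polynomial.X + 1) ^ 3 +
    Polynomial.C (T : ℤ) * (Polynomial.X * (1 + Polynomial.X)) ^ 2, by monicity!, ?_⟩
  unfold Rel at h
  simp only [Polynomial.eval₂_add, Polynomial.eval₂_mul, Polynomial.eval₂_pow, Polynomial.eval₂_X,
    Polynomial.eval₂_C, Polynomial.eval₂_one, map_natCast, Polynomial.eval₂_natCast]
  linear_combination h

theorem PTS_pf : PTS_st := by
  refine ⟨fun T a hT h => ?_, fun F _ T a h => ?_⟩
  · have hT' : (1 : ℝ) ≤ T := by exact_mod_cast hT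
    have h1 : ‖a * (1 + a)‖ ≤ 5 * T := norm_PTS hT (by unfold Rel at h; linear_combination h)
    rw [norm_mul] at h1
    have h2 : ‖a‖ - 1 ≤ ‖1 + a‖ := by
      have := norm_sub_le (1 + a) 1
      rw [add_sub_cancel_left, norm_one] at this
      linarith
    have h3 : ‖1 + a‖ - 1 ≤ ‖a‖ := by
      have := norm_add_le 1 a
      rw [norm_one] at this
      linarith
    exact ⟨both_PTS (by linarith) h2 h1, both_PTS (by linarith) h3 (by rwa [mul_comm])⟩
  · have hi := int_PTS h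
    unfold Rel at h
    have h1 : (a * (1 + a)) * (-((a * (1 + a)) ^ 2 + (3 + T) * (a * (1 + a)) + 3)) = 1 := by
      linear_combination (-1 : F) * h
    have h0 : a * (1 + a) ≠ 0 := left_ne_zero_of_mul_eq_one h1
    refine ⟨left_ne_zero_of_mul h0, right_ne_zero_of_mul h0, hi, ?_⟩
    rw [← eq_inv_of_mul_eq_one_right h1]
    have hs : IsIntegral ℤ (a * (1 + a)) := hi.mul (isIntegral_one.add hi)
    have h3 : IsIntegral ℤ (3 : F) := by exact_mod_cast isIntegral_natCast (R := ℤ) (B := F) 3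
    exact (((hs.pow 2).add ((h3.add (isIntegral_natCast T)).mul hs)).add h3).neg

end Pool.Agent.MP_3e91a1_nt.CC
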