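import Pool.Agent.MP_3e91a1_nt.CC.St1

set_option autoImplicit false

open Finset PowerSeries

noncomputable section

namespace Pool.Agent.MP_3e91a1_nt.CC

/-- a geometric bound for the first `n` coefficients -/
def Bd_SIZ (n : ℕ) (M c : ℝ) (f : ℂ⟦X⟧) : Prop := ∀ k < n, ‖coeff k f‖ ≤ c * M ^ k

theorem mul_SIZ {n : ℕ} {M c d : ℝ} {f g : ℂ⟦X⟧} (hf : Bd_SIZ n M c f) (hg : Bd_SIZ n M d g) :
    Bd_SIZ n M (n * c * d) (f * g) := by
  intro k hk
  have h1 : ∀ x ∈ antidiagonal k, ‖coeff x.1 f * coeff x.2 g‖ ≤ c * d * M ^ k := by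
    intro x hx
    have h2 := mem_antidiagonal.1 hx
    rw [norm_mul, ← h2, pow_add, mul_mul_mul_comm]
    exact mul_le_mul (hf _ (by omega)) (hg _ (by omega)) (norm_nonneg _)
      ((norm_nonneg _).trans (hf _ (by omega)))
  have h3 : 0 ≤ c * d * M ^ k := (norm_nonneg _).trans (h1 (0, k) (by simp))
  rw [coeff_mul]
  refine (norm_sum_le _ _).trans ((sum_le_card_nsmul _ _ _ h1).trans ?_)
  rw [Nat.card_antidiagonal, nsmul_eq_mul, mul_assoc (n : ℝ), mul_assoc (n : ℝ)]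
  exact mul_le_mul_of_nonneg_right (by exact_mod_cast hk) h3

theorem one_SIZ {n : ℕ} {M : ℝ} (hM : 1 ≤ M) : Bd_SIZ n M 1 1 := by
  intro k _
  rw [one_mul, coeff_one]
  refine le_trans ?_ (one_le_pow₀ hM)
  split_ifs <;> simp

theorem pow_SIZ {n : ℕ} {M c : ℝ} {f : ℂ⟦X⟧} (hM : 1 ≤ M) (hf : Bd_SIZ n M c f) (j : ℕ) :
    Bd_SIZ n M ((n * c) ^ j) (f ^ j) := by
  induction j with
  | zero =>
    rw [pow_zero, pow_zero]
    exact one_SIZ hM
  | succ j ih =>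
    have := mul_SIZ ih hf
    rw [pow_succ, pow_succ, show (n * c) ^ j * (n * c) = n * (n * c) ^ j * c by ring]
    exact this

theorem lin_SIZ {n : ℕ} {M Y : ℝ} {u v : ℂ} (hM : 1 ≤ M) (hY : 1 ≤ Y) (hu : ‖u‖ ≤ Y)
    (hv : ‖v‖ ≤ M) (e : ℕ) : Bd_SIZ n M ((2 * Y) ^ e) ((C u + C v * X) ^ e) := by
  induction e with
  | zero =>
    rw [pow_zero, pow_zero]
    exact one_SIZ hM
  | succ e ih =>
    intro k hk
    have h0 : 0 ≤ (2 * Y) ^ e := by positivity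
    rw [pow_succ, mul_add, map_add, coeff_mul_C, ← mul_assoc]
    rcases k with _ | k
    · have h1 := ih 0 hk
      rw [coeff_zero_mul_X, add_zero, norm_mul, pow_succ]
      rw [pow_zero, mul_one] at h1 ⊢
      exact mul_le_mul h1 (by linarith) (norm_nonneg _) h0
    · have h1 := ih _ hk
      have h2 := ih k (by omega)
      rw [coeff_succ_mul_X, coeff_mul_C]
      refine (norm_add_le _ _).trans ?_
      rw [norm_mul, norm_mul]
      calc _ ≤ (2 * Y) ^ e * M ^ (k + 1) * Y + (2 * Y) ^ e * M ^ k * M := by gcongr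
        _ = (2 * Y) ^ e * M ^ (k + 1) * (Y + 1) := by ring
        _ ≤ (2 * Y) ^ e * M ^ (k + 1) * (2 * Y) := by gcongr; linarith
        _ = _ := by ring

theorem lg_SIZ {n : ℕ} (L : ℕ) {M : ℝ} {b : ℂ} (hb : ‖b‖ ≤ M) : Bd_SIZ n M L (Lg L b) := by
  intro k _
  rw [Lg, coeff_mk, norm_mul, norm_mul, norm_pow, norm_neg, norm_one, one_pow, one_mul,
    Complex.norm_natCast, norm_pow]
  have h3 : ((L / k : ℕ) : ℝ) ≤ L := by exact_mod_cast Nat.div_le_self L k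
  gcongr

theorem SIZ_pf : SIZ_st := by
  intro a c B D K L n e i j k m hB ha hb hc hL he hi hj hk hm
  have m1 : 1 ≤ B ^ 2 := one_le_pow₀ hB
  have m2 : B ≤ B ^ 2 := le_self_pow₀ hB (by norm_num)
  have h1 : Bd_SIZ n (B ^ 2) ((2 * B) ^ e * B ^ i) (Xs a ^ e * C c ^ i) := by
    intro k hk
    have h2 := lin_SIZ (n := n) (v := a * (1 + a)) m1 hB ha (by rw [norm_mul, sq]; gcongr) e k hk
    rw [← map_pow, coeff_mul_C, norm_mul, norm_pow]
    calc _ ≤ (2 * B) ^ e * (B ^ 2) ^ k * B ^ i := by gcongr; exact h2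
      _ = _ := by ring
  have h2 := mul_SIZ (mul_SIZ h1 (pow_SIZ m1 (lg_SIZ L (hb.trans m2)) j))
    (pow_SIZ m1 (lg_SIZ L (ha.trans m2)) k) m hm
  refine h2.trans ?_
  have h3 : (1 : ℝ) ≤ n := by exact_mod_cast (by omega : 1 ≤ n)
  have h4 : (1 : ℝ) ≤ L := by exact_mod_cast Nat.pos_of_ne_zero hL
  have h5 : (1 : ℝ) ≤ n * L := one_le_mul_of_one_le_of_one_le h3 h4
  have h6 : (n : ℝ) ≤ n * L := le_mul_of_one_le_right (by linarith) h4
  have h7 : (1 : ℝ) ≤ 2 * B := by linarith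
  calc _ ≤ (n * L) * ((n * L) * ((2 * B) ^ D * B ^ K) * (n * L) ^ K) * (n * L) ^ K *
        (B ^ 2) ^ n := by gcongr
    _ = _ := by ring

end Pool.Agent.MP_3e91a1_nt.CC
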