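import Pool.Agent.MP_3e91a1_nt.CC.St

/-! The exponent of the units modulo an unramified prime. -/

set_option autoImplicit false

open NumberField Module Finset

namespace Pool.Agent.MP_3e91a1_nt.CC

theorem pow_UNR {p : ℕ} {K : Type} [Field K] [NumberField K] (hp : p.Prime)
    (h3 : finrank ℚ K = 3) (P : Ideal (𝓞 K)) [P.IsMaximal] (h : (p : 𝓞 K) ∈ P) {y : 𝓞 K}
    (hy : y ∉ P) : y ^ ((p - 1) * (p ^ 2 - 1) * (p ^ 3 - 1)) - 1 ∈ P := by
  have d : Ideal.absNorm P ∣ p ^ 3 := by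
    have := Ideal.absNorm_dvd_absNorm_of_le ((Ideal.span_singleton_le_iff_mem P).2 h)
    rwa [Ideal.absNorm_span_natCast, RingOfIntegers.rank, h3] at this
  obtain ⟨k, hk, e⟩ := (Nat.dvd_prime_pow hp).1 d
  have n : Ideal.absNorm P ≠ 0 := e ▸ pow_ne_zero _ hp.ne_zero
  have : Finite (𝓞 K ⧸ P) := (Ideal.absNorm_ne_zero_iff P).1 n
  let := Fintype.ofFinite (𝓞 K ⧸ P)
  let := Ideal.Quotient.field P
  have c : Fintype.card (𝓞 K ⧸ P) = p ^ k := by
    rw [← e, Ideal.absNorm_apply, Submodule.cardQuot_apply, Nat.card_eq_fintype_card]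
  have f := FiniteField.pow_card_sub_one_eq_one (Ideal.Quotient.mk P y)
    (mt Ideal.Quotient.eq_zero_iff_mem.1 hy)
  have k0 : k ≠ 0 := fun k0 => by
    have := Fintype.one_lt_card (α := 𝓞 K ⧸ P)
    rw [c, k0] at this
    exact absurd this (by simp)
  obtain ⟨m, hm⟩ : p ^ k - 1 ∣ (p - 1) * (p ^ 2 - 1) * (p ^ 3 - 1) := by
    interval_cases k
    · exact absurd rfl k0
    · rw [pow_one, mul_assoc]
      exact dvd_mul_right _ _
    · exact (dvd_mul_left _ _).mul_right _
    · exact dvd_mul_left _ _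
  rw [← Ideal.Quotient.eq_zero_iff_mem, map_sub, map_pow, hm, pow_mul, ← c, f, one_pow, map_one,
    sub_self]

theorem UNR_pf : UNR_st := by
  intro p K _ _ hp h3 hd y hy
  have hq : Prime (p : ℤ) := Nat.prime_iff_prime_int.1 hp
  rw [← Ideal.mem_span_singleton]
  refine Ideal.mem_of_localization_maximal fun P hP => ?_
  by_cases h : (p : 𝓞 K) ∈ P
  · have u := (not_dvd_discr_iff_forall_mem K (𝓞 K) hq).1 hd P hP.isPrime (by simpa using h)
    have : (Ideal.span {(p : ℤ)}).IsPrime := (Ideal.span_singleton_prime hq.ne_zero).2 hq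
    have : P.LiesOver (Ideal.span {(p : ℤ)}) :=
      (Ideal.liesOver_span_iff hP.ne_top hq).2 (by simpa using h)
    let := Localization.AtPrime.algebraOfLiesOver (Ideal.span {(p : ℤ)}) P
    have e := ((Algebra.isUnramifiedAt_iff_map_eq ℤ (Ideal.span {(p : ℤ)}) P).1 u).2
    rw [Ideal.map_span, Set.image_singleton, map_natCast] at e ⊢
    rw [e]
    refine (IsLocalization.AtPrime.to_map_mem_maximal_iff _ P _).2 (pow_UNR hp h3 P h fun k => ?_)
    obtain ⟨a, b, e⟩ := hy
    exact hP.ne_top ((Ideal.eq_top_iff_one P).2 (e ▸ P.add_mem (P.mul_mem_left a k)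
      (P.mul_mem_left b h)))
  · rw [Ideal.map_span, Set.image_singleton, Ideal.span_singleton_eq_top.2
      (IsLocalization.map_units (M := P.primeCompl) _ ⟨_, h⟩)]
    trivial

end Pool.Agent.MP_3e91a1_nt.CC
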