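import Pool.Agent.MP_3e91a1_nt.CC.St1
import Pool.Agent.MP_384f6f_nt.AL.Wr

/-! The zero estimate. -/

set_option autoImplicit false

open Finset

noncomputable section

namespace Pool.Agent.MP_3e91a1_nt.CC

open Pool.Agent.MP_384f6f_nt.AL

variable {F : Type} [Field F]

section PS

open PowerSeries

theorem lg_ZER [CharZero F] (a : F) : (1 + C a * X) * d⁄dX F (lg a) = C a := by
  ext k
  have h : ∀ k : ℕ, coeff k (d⁄dX F (lg a)) = (-1) ^ k * a ^ (k + 1) := fun k => by
    have : (k : F) + 1 ≠ 0 := Nat.cast_add_one_ne_zero k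
    rw [coeff_derivative, lg, coeff_mk]
    push_cast
    field_simp
    ring
  rcases k with _ | k
  · rw [add_mul, one_mul, mul_assoc, map_add, coeff_C_mul, coeff_zero_X_mul, h]
    simp
  · rw [add_mul, one_mul, mul_assoc, map_add, coeff_C_mul, coeff_succ_X_mul, h, h, coeff_C,
      if_neg (Nat.succ_ne_zero k)]
    ring

theorem DD_mul_ZER (a b : F) (f g : F⟦X⟧) : DD a b (f * g) = DD a b f * g + f * DD a b g := by
  simp only [DD, Derivation.leibniz, smul_eq_mul]
  ring

theorem DD_add_ZER (a b : F) (f g : F⟦X⟧) : DD a b (f + g) = DD a b f + DD a b g := by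
  simp only [DD, map_add, mul_add]

theorem dvd_ZER {a : F} (h0 : a ≠ 0) (h1 : 1 + a ≠ 0) (q : Polynomial F) (m : ℕ)
    (h : X ^ m ∣ Polynomial.aeval (Xs a) q) : (Polynomial.X - Polynomial.C a) ^ m ∣ q := by
  have hc := mul_ne_zero h0 h1
  generalize hcc : a * (1 + a) = c at hc
  have e : Polynomial.aeval (Xs a) q =
      (q.comp (Polynomial.C a + Polynomial.C c * Polynomial.X) : Polynomial F) := by
    clear h
    induction q using Polynomial.induction_on' with
    | add p q hp hq => simp only [map_add, hp, hq, Polynomial.add_comp, Polynomial.coe_add]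
    | monomial n r => simp [Xs, hcc]
  have h1 : Polynomial.X ^ m ∣ q.comp (Polynomial.C a + Polynomial.C c * Polynomial.X) := by
    rw [Polynomial.X_pow_dvd_iff]
    intro d hd
    rw [← Polynomial.coeff_coe, ← e]
    exact X_pow_dvd_iff.1 h d hd
  have h2 := map_dvd (Polynomial.compRingHom
    (Polynomial.C c⁻¹ * (Polynomial.X - Polynomial.C a))) h1
  simp only [Polynomial.coe_compRingHom_apply, Polynomial.comp_assoc, Polynomial.pow_comp,
    Polynomial.X_comp, Polynomial.add_comp, Polynomial.mul_comp, Polynomial.C_comp] at h2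
  rw [← mul_assoc, ← Polynomial.C_mul, mul_inv_cancel₀ hc, Polynomial.C_1, one_mul, add_sub_cancel,
    Polynomial.comp_X, mul_pow] at h2
  exact (dvd_mul_left _ _).trans h2

end PS

open MvPolynomial

/-- the derivation -/
def th_ZER (F : Type) [Field F] : Derivation F (MvPolynomial (Fin 3) F) (MvPolynomial (Fin 3) F) :=
  mkDerivation F ![X 0 * (1 + X 0), 1 + X 0, X 0]

/-- the evaluation -/
def ev_ZER (a : F) : MvPolynomial (Fin 3) F →ₐ[F] PowerSeries F := aeval ![Xs a, lg (1 + a), lg a]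

theorem ev_th_ZER [CharZero F] (a : F) (G : MvPolynomial (Fin 3) F) :
    DD a (1 + a) (ev_ZER a G) = ev_ZER a (th_ZER F G) := by
  induction G using MvPolynomial.induction_on with
  | C r => simp [ev_ZER, DD, derivation_C]
  | add p q hp hq => simp only [map_add, DD_add_ZER, hp, hq]
  | mul_X p i hp =>
    have h : DD a (1 + a) (ev_ZER a (X i)) = ev_ZER a (th_ZER F (X i)) := by
      have h1 := lg_ZER a
      have h2 := lg_ZER (1 + a)
      simp only [th_ZER, mkDerivation_X, ev_ZER, aeval_X, DD]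
      simp only [map_add, map_one] at h2
      fin_cases i
      · simp [Xs, PowerSeries.derivative_C]
        ring
      · simp [Xs]
        linear_combination (1 + PowerSeries.C a * PowerSeries.X) * h2
      · simp [Xs]
        linear_combination (1 + (1 + PowerSeries.C a) * PowerSeries.X) * h1
    rw [map_mul, DD_mul_ZER, hp, h, Derivation.leibniz]
    simp only [smul_eq_mul, map_add, map_mul]
    ring

theorem ev_pow_ZER [CharZero F] (a : F) (m : ℕ) (G : MvPolynomial (Fin 3) F) :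
    (DD a (1 + a))^[m] (ev_ZER a G) = ev_ZER a (((th_ZER F).toLinearMap ^ m) G) := by
  induction m with
  | zero => rfl
  | succ m ih => rw [Function.iterate_succ_apply', ih, ev_th_ZER, pow_succ']; rfl

/-- the translation -/
def tr_ZER (μ ν : F) : MvPolynomial (Fin 3) F →ₐ[F] MvPolynomial (Fin 3) F :=
  aeval ![X 0, X 1 + C μ, X 2 + C ν]

theorem tr_th_ZER (μ ν : F) (G : MvPolynomial (Fin 3) F) :
    tr_ZER μ ν (th_ZER F G) = th_ZER F (tr_ZER μ ν G) := by
  induction G using MvPolynomial.induction_on with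
  | C r => simp [tr_ZER, derivation_C]
  | add p q hp hq => simp only [map_add, hp, hq]
  | mul_X p i hp =>
    have h : tr_ZER μ ν (th_ZER F (X i)) = th_ZER F (tr_ZER μ ν (X i)) := by
      fin_cases i <;> simp [th_ZER, tr_ZER, mkDerivation_X, derivation_C]
    rw [map_mul (tr_ZER μ ν), Derivation.leibniz, Derivation.leibniz]
    simp only [smul_eq_mul, map_add (tr_ZER μ ν), map_mul (tr_ZER μ ν), hp, h]

theorem tr_pow_ZER (μ ν : F) (m : ℕ) (G : MvPolynomial (Fin 3) F) :
    tr_ZER μ ν (((th_ZER F).toLinearMap ^ m) G) = ((th_ZER F).toLinearMap ^ m) (tr_ZER μ ν G) := by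
  induction m with
  | zero => rfl
  | succ m ih =>
    rw [pow_succ', Module.End.mul_apply, Module.End.mul_apply, ← ih]
    exact tr_th_ZER μ ν _

/-- bounded degree in the first variable -/
def S_ZER (F : Type) [Field F] (d : ℕ) : Submodule F (MvPolynomial (Fin 3) F) :=
  Submodule.span F {x | ∃ e ≤ d, ∃ j k : ℕ, x = X 0 ^ e * X 1 ^ j * X 2 ^ k}

theorem S_mem_ZER {d e : ℕ} (h : e ≤ d) (j k : ℕ) : X 0 ^ e * X 1 ^ j * X 2 ^ k ∈ S_ZER F d :=
  Submodule.subset_span ⟨e, h, j, k, rfl⟩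

theorem S_th_ZER {d : ℕ} {G : MvPolynomial (Fin 3) F} (h : G ∈ S_ZER F d) :
    th_ZER F G ∈ S_ZER F (d + 1) := by
  refine Submodule.span_le (p := (S_ZER F (d + 1)).comap (th_ZER F).toLinearMap) |>.2 ?_ h
  rintro _ ⟨e, he, j, k, rfl⟩
  have h1 : th_ZER F (X 0 ^ e * X 1 ^ j * X 2 ^ k) =
      e • (X 0 ^ e * X 1 ^ j * X 2 ^ k + X 0 ^ (e + 1) * X 1 ^ j * X 2 ^ k) +
      j • (X 0 ^ e * X 1 ^ (j - 1) * X 2 ^ k + X 0 ^ (e + 1) * X 1 ^ (j - 1) * X 2 ^ k) +
      k • (X 0 ^ (e + 1) * X 1 ^ j * X 2 ^ (k - 1)) := by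
    simp only [Derivation.leibniz, Derivation.leibniz_pow, th_ZER, mkDerivation_X]
    rcases e with _ | e <;> simp <;> ring
  change th_ZER F _ ∈ S_ZER F (d + 1)
  rw [h1]
  exact add_mem (add_mem (nsmul_mem (add_mem (S_mem_ZER (by omega) _ _)
    (S_mem_ZER (by omega) _ _)) _) (nsmul_mem (add_mem (S_mem_ZER (by omega) _ _)
    (S_mem_ZER (by omega) _ _)) _)) (nsmul_mem (S_mem_ZER (by omega) _ _) _)

theorem S_pow_ZER {d : ℕ} {G : MvPolynomial (Fin 3) F} (h : G ∈ S_ZER F d) (m : ℕ) :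
    ((th_ZER F).toLinearMap ^ m) G ∈ S_ZER F (d + m) := by
  induction m with
  | zero => exact h
  | succ m ih => rw [pow_succ']; exact S_th_ZER ih

theorem S_deg_ZER {d : ℕ} {G : MvPolynomial (Fin 3) F} (h : G ∈ S_ZER F d) :
    (aeval ![Polynomial.X, 0, 0] G : Polynomial F).natDegree ≤ d := by
  induction h using Submodule.span_induction with
  | mem x hx =>
    obtain ⟨e, he, j, k, rfl⟩ := hx
    simp only [map_mul, map_pow, aeval_X]
    refine Polynomial.natDegree_mul_le.trans ((add_le_add (Polynomial.natDegree_mul_le.trans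
      (add_le_add Polynomial.natDegree_pow_le Polynomial.natDegree_pow_le))
        Polynomial.natDegree_pow_le).trans ?_)
    simpa using he
  | zero => simp
  | add x y _ _ h1 h2 => rw [map_add]; exact (Polynomial.natDegree_add_le _ _).trans (max_le h1 h2)
  | smul r x _ h1 => rw [map_smul]; exact (Polynomial.natDegree_smul_le _ _).trans h1

theorem main_ZER (hIND : IND_st) (hINV : INV_st) (hWRO : WRO_st) [CharZero F]
    (V : Submodule F (MvPolynomial (Fin 3) F)) [Module.Finite F V] {D : ℕ} (h1 : V ≤ S_ZER F D)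
    (h2 : ∀ μ ν, ∀ G ∈ V, tr_ZER μ ν G ∈ V) {P : Type} (Q : Finset P) {a : P → F}
    (ha : Function.Injective a) (h3 : ∀ s, a s ≠ 0 ∧ 1 + a s ≠ 0) (n : ℕ)
    (h4 : ∀ s ∈ Q, ∃ G ∈ V, G ≠ 0 ∧ PowerSeries.X ^ n ∣ ev_ZER (a s) G) :
    Q.card * (n - Module.finrank F V) ≤ Module.finrank F V * (D + Module.finrank F V) := by
  rcases Q.eq_empty_or_nonempty with rfl | ⟨s₀, -⟩
  · simp
  have b := Module.finBasis F V
  generalize Module.finrank F V = r at b ⊢
  let A : Matrix (Fin r) (Fin r) (MvPolynomial (Fin 3) F) :=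
    Matrix.of fun m l => ((th_ZER F).toLinearMap ^ (m : ℕ)) (b l)
  have hb : ∀ G (hG : G ∈ V), ∀ m : Fin r, ((th_ZER F).toLinearMap ^ (m : ℕ)) G =
      ∑ l, A m l * C (b.repr ⟨G, hG⟩ l) := fun G hG m => by
    conv_lhs => rw [show G = _ from congrArg Subtype.val (b.sum_repr ⟨G, hG⟩).symm]
    simp only [Submodule.coe_sum, Submodule.coe_smul, map_sum, map_smul]
    simp only [smul_eq_C_mul, A, Matrix.of_apply, mul_comm]
  have e1 := hINV F A.det fun μ ν => by
    refine ⟨(Matrix.of fun l' l => b.repr ⟨_, h2 μ ν _ (b l).2⟩ l').det, ?_⟩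
    change tr_ZER μ ν _ = _
    rw [AlgHom.map_det, smul_eq_C_mul, RingHom.map_det, mul_comm, ← Matrix.det_mul]
    refine congrArg _ (Matrix.ext fun m l => ?_)
    exact (tr_pow_ZER μ ν m _).trans (hb _ (h2 μ ν _ (b l).2) m)
  let W : Polynomial F := aeval ![Polynomial.X, 0, 0] A.det
  have e2 : ∀ x : F, ev_ZER x A.det = Polynomial.aeval (Xs x) W := fun x => by
    have h : (ev_ZER x).comp (aeval ![X 0, 0, 0]) =
        (Polynomial.aeval (Xs x)).comp (aeval ![Polynomial.X, 0, 0]) :=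
      algHom_ext fun i => by fin_cases i <;> simp [ev_ZER]
    conv_lhs => rw [e1]
    exact congr($h A.det)
  have e3 : W ≠ 0 := fun h => by
    refine hWRO F (a s₀) (1 + a s₀) r (fun l => ev_ZER (a s₀) (b l))
      ((b.linearIndependent.map' V.subtype V.ker_subtype).map' (ev_ZER (a s₀)).toLinearMap
        (LinearMap.ker_eq_bot.2 (hIND F _ (h3 s₀).1 (h3 s₀).2))) ?_
    have h5 := e2 (a s₀)
    rw [h, map_zero, AlgHom.map_det] at h5
    rw [← h5]
    exact congrArg _ (Matrix.ext fun m l => ev_pow_ZER _ _ _)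
  have e4 : W.natDegree ≤ r * (D + r) := by
    simp only [W, AlgHom.map_det]
    refine (natDegree_det _ (D + r) fun m l => ?_).trans (by rw [Fintype.card_fin])
    exact (S_deg_ZER (S_pow_ZER (h1 (b l).2) m)).trans (by omega)
  have e5 : ∀ s ∈ Q, (Polynomial.X - Polynomial.C (a s)) ^ (n - r) ∣ W := fun s hs => by
    obtain ⟨G, hG, h5, h6⟩ := h4 s hs
    obtain ⟨l, hl⟩ : ∃ l, b.repr ⟨G, hG⟩ l ≠ 0 := by
      by_contra! h7
      exact h5 (congrArg Subtype.val (b.repr.map_eq_zero_iff.1 (Finsupp.ext h7)))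
    refine dvd_ZER (h3 s).1 (h3 s).2 _ _ ?_
    rw [← e2, AlgHom.map_det]
    refine (((IsUnit.mk0 _ hl).map (algebraMap F (PowerSeries F))).dvd_mul_right).1
      (det_mul_dvd _ (fun l => algebraMap F _ (b.repr ⟨G, hG⟩ l)) _ (fun m => ?_) l)
    have h7 := D_iter_dvd (AddMonoidHom.mk' (DD (a s) (1 + a s)) (DD_add_ZER _ _))
      (DD_mul_ZER _ _) _ _ n h6 m
    refine (pow_dvd_pow _ (by omega)).trans (h7.trans (dvd_of_eq ?_))
    refine (ev_pow_ZER _ _ _).trans ?_
    rw [hb G hG m, map_sum]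
    exact sum_congr rfl fun l _ => by rw [map_mul, algHom_C]; rfl
  have e6 := Polynomial.natDegree_le_of_dvd (prod_dvd_of_coprime (fun s _ t _ h =>
    (Polynomial.pairwise_coprime_X_sub_C ha h).pow) e5) e3
  rw [Polynomial.natDegree_prod_of_monic _ _ fun s _ => (Polynomial.monic_X_sub_C _).pow _] at e6
  simp only [Polynomial.natDegree_pow, Polynomial.natDegree_X_sub_C, mul_one, sum_const,
    smul_eq_mul] at e6
  exact e6.trans e4

theorem ZER_pf (hIND : IND_st) (hINV : INV_st) (hWRO : WRO_st) : ZER_st := by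
  intro F P _ _ _ a c D K n v ha hc h1 hv h2
  classical
  obtain ⟨t₀, h0⟩ := Function.ne_iff.1 hv
  let g : (Fin (K + 1) × Fin (K + 1) × Fin (K + 1)) × Fin (K + 1) × Fin (K + 1) →
      MvPolynomial (Fin 3) F := fun w =>
    (∑ e : Fin D, C (v (e, w.1)) * X 0 ^ (e : ℕ)) * X 1 ^ (w.2.1 : ℕ) * X 2 ^ (w.2.2 : ℕ)
  let V := Submodule.span F (Set.range g)
  have : Module.Finite F V := Module.Finite.span_of_finite F (Set.finite_range g)
  have hr : Module.finrank F V ≤ (K + 1) ^ 5 := (finrank_range_le_card g).trans (by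
    simp only [Fintype.card_prod, Fintype.card_fin]
    exact le_of_eq (by ring))
  let mo : Ix D K → Fin 3 →₀ ℕ := fun t =>
    Finsupp.single 0 (t.1 : ℕ) + Finsupp.single 1 (t.2.2.1 : ℕ) + Finsupp.single 2 (t.2.2.2 : ℕ)
  let B : Polynomial F := ∑ t, if mo t = mo t₀ then Polynomial.monomial (t.2.1 : ℕ) (v t) else 0
  have hB0 : B ≠ 0 := fun h => by
    have h3 := congrArg (Polynomial.coeff · t₀.2.1) h
    simp only [B, Polynomial.finsetSum_coeff, Polynomial.coeff_zero] at h3
    rw [sum_eq_single t₀] at h3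
    · exact h0 (by simpa using h3)
    · intro t _ ht
      split_ifs with h4
      · rw [Polynomial.coeff_monomial, if_neg]
        refine fun h5 => ht (Prod.ext (Fin.ext ?_) (Prod.ext (Fin.ext h5)
          (Prod.ext (Fin.ext ?_) (Fin.ext ?_))))
        · simpa [mo] using congr($h4 0)
        · simpa [mo] using congr($h4 1)
        · simpa [mo] using congr($h4 2)
      · rfl
    · simp
  have hB1 : B.natDegree ≤ K := by
    refine Polynomial.natDegree_sum_le_of_forall_le _ _ fun t _ => ?_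
    split_ifs
    · exact (Polynomial.natDegree_monomial_le _).trans (Nat.le_of_lt_succ t.2.1.2)
    · simp
  have h3 := main_ZER hIND hINV hWRO V (D := D) (Submodule.span_le.2 ?_)
    (fun μ ν G hG => Submodule.span_le (p := V.comap (tr_ZER μ ν).toLinearMap) |>.2 ?_ hG)
    (univ.filter fun s => B.eval (c s) ≠ 0) ha h1 n fun s hs =>
      ⟨∑ t : Ix D K, C (v t) * (X 0 ^ (t.1 : ℕ) * C (c s) ^ (t.2.1 : ℕ) * X 1 ^ (t.2.2.1 : ℕ) *
        X 2 ^ (t.2.2.2 : ℕ)), ?_, fun h => (mem_filter.1 hs).2 ?_, ?_⟩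
  · have h4 := card_filter_add_card_filter_not (s := univ) fun s => B.eval (c s) ≠ 0
    have h5 : (univ.filter fun s => ¬ B.eval (c s) ≠ 0).card ≤ K := by
      refine le_trans (card_le_card_of_injOn c (fun s hs => ?_) hc.injOn)
        ((Multiset.toFinset_card_le _).trans ((Polynomial.card_roots' B).trans hB1))
      rw [mem_coe, Multiset.mem_toFinset, Polynomial.mem_roots hB0]
      exact not_not.1 (mem_filter.1 hs).2
    rw [card_univ] at h4
    exact (Nat.mul_le_mul (by omega) (by omega)).trans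
      (h3.trans (Nat.mul_le_mul hr (Nat.add_le_add_left hr _)))
  · rintro _ ⟨w, rfl⟩
    simp only [g, sum_mul, SetLike.mem_coe]
    refine Submodule.sum_mem _ fun e _ => ?_
    rw [mul_assoc, mul_assoc, ← smul_eq_C_mul, ← mul_assoc]
    exact Submodule.smul_mem _ _ (S_mem_ZER e.2.le _ _)
  · rintro _ ⟨⟨w, j, k⟩, rfl⟩
    change tr_ZER μ ν _ ∈ V
    have h4 : tr_ZER μ ν (g (w, j, k)) = (∑ e : Fin D, C (v (e, w)) * X 0 ^ (e : ℕ)) *
        ((X 1 + C μ) ^ (j : ℕ) * (X 2 + C ν) ^ (k : ℕ)) := by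
      simp [g, tr_ZER, mul_assoc]
    rw [h4, add_pow, add_pow, sum_mul_sum, mul_sum]
    refine Submodule.sum_mem _ fun j' hj => ?_
    rw [mul_sum]
    refine Submodule.sum_mem _ fun k' hk => ?_
    have hj' := mem_range.1 hj
    have hk' := mem_range.1 hk
    refine (congrArg (· ∈ V) ?_).mp (V.smul_mem
      (μ ^ (j - j') * (j : ℕ).choose j' * (ν ^ (k - k') * (k : ℕ).choose k'))
      (Submodule.subset_span ⟨(w, ⟨j', by omega⟩, ⟨k', by omega⟩), rfl⟩))
    simp only [g, smul_eq_C_mul, map_mul, map_pow, map_natCast]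
    ring
  · rw [Fintype.sum_prod_type_right]
    refine Submodule.sum_mem _ fun w _ => ?_
    refine (congrArg (· ∈ V) ?_).mp (V.smul_mem (c s ^ (w.1 : ℕ))
      (Submodule.subset_span ⟨(w, w.2), rfl⟩))
    simp only [g, smul_eq_C_mul, map_pow, sum_mul, mul_sum]
    exact sum_congr rfl fun e _ => by ring
  · have h4 := congrArg (coeff (mo t₀)) h
    rw [coeff_sum, coeff_zero] at h4
    rw [← h4, Polynomial.eval_finsetSum]
    refine sum_congr rfl fun t _ => ?_
    simp only [X_pow_eq_monomial, C_apply, monomial_mul, monomial_pow, coeff_monomial,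
      zero_add, add_zero, smul_zero, mul_one, one_mul, mo]
    split_ifs <;> simp
  · refine (h2 s).trans (dvd_of_eq ?_)
    simp [ev_ZER, PowerSeries.C_eq_algebraMap]

end Pool.Agent.MP_3e91a1_nt.CC
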