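import Pool.Agent.MP_3e91a1_nt.All
import Pool.Agent.MP_3e91a1_nt.CC.CNG
import Pool.Agent.MP_3e91a1_nt.CC.COR
import Pool.Agent.MP_3e91a1_nt.CC.CUB
import Pool.Agent.MP_3e91a1_nt.CC.DET
import Pool.Agent.MP_3e91a1_nt.CC.DIV
import Pool.Agent.MP_3e91a1_nt.CC.ETA
import Pool.Agent.MP_3e91a1_nt.CC.FEW
import Pool.Agent.MP_3e91a1_nt.CC.FRB
import Pool.Agent.MP_3e91a1_nt.CC.GD
import Pool.Agent.MP_3e91a1_nt.CC.IND
import Pool.Agent.MP_3e91a1_nt.CC.INV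
import Pool.Agent.MP_3e91a1_nt.CC.LIN
import Pool.Agent.MP_3e91a1_nt.CC.PTS
import Pool.Agent.MP_3e91a1_nt.CC.RFL
import Pool.Agent.MP_3e91a1_nt.CC.SIZ
import Pool.Agent.MP_3e91a1_nt.CC.THR
import Pool.Agent.MP_3e91a1_nt.CC.UNR
import Pool.Agent.MP_3e91a1_nt.CC.WRO
import Pool.Agent.MP_3e91a1_nt.CC.ZER

set_option autoImplicit false

namespace Pool.Agent.MP_3e91a1_nt.CC

theorem few_ok : FEW_st := FEW_pf (CC.COR_pf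
  (DET_pf (ZER_pf CC.IND_pf INV_pf WRO_pf) CNG_pf SIZ_pf PTS_pf DIV_pf))

theorem one_ok : ONC_st := ONC_pf (GD_pf RES_ok TWR_ok TRF_ok FRB_pf CUB_pf PTS_pf CC.UNR_pf
  CC.ETA_pf (THR_pf LIN_pf) RFL_pf) GOOD_ok TOP_ok DEV_ok MEM_ok

theorem point (T : ℕ) (w : AlgebraicClosure ℚ) (hw : w ^ 3 + T * w + T = 0) :
    ∃ (a : AlgebraicClosure ℚ) (B : ℕ), 1 ≤ T → Rel (T : AlgebraicClosure ℚ) a ∧
      ∀ (p : ℕ) [Fact p.Prime], B < p → ¬ Bad p a →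
        ∀ K, PExt p (IntermediateField.adjoin ℚ {w}) K → WeakLeopoldt p K {0} := by
  rcases T.eq_zero_or_pos with rfl | hT
  · exact ⟨0, 0, fun h => absurd h (by omega)⟩
  obtain ⟨s, hs⟩ := IsAlgClosed.exists_pow_nat_eq ((1 - w) ^ 2 - 4) two_pos
  have ha : (1 + (w - 1 + s) / 2) ^ 2 = (1 + w) * ((w - 1 + s) / 2) := by
    linear_combination hs / 4
  obtain ⟨B, hB⟩ := one_ok T w _ hT hw ha
  exact ⟨_, B, fun _ => ⟨rel_GD hw ha, hB⟩⟩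

end Pool.Agent.MP_3e91a1_nt.CC
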