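import Pool.Agent.MP_3e91a1_nt.CC.St1

/-! An eigenvector of the translations depends on the first variable only. -/

set_option autoImplicit false

noncomputable section

namespace Pool.Agent.MP_3e91a1_nt.CC

theorem comp_INV {F : Type} [Field F] (W : MvPolynomial (Fin 3) F) (x : Fin 3 → F)
    (f : Fin 3 → MvPolynomial (Fin 3) F) :
    MvPolynomial.eval x (MvPolynomial.aeval f W) =
      MvPolynomial.eval (fun i => MvPolynomial.eval x (f i)) W := by
  induction W using MvPolynomial.induction_on with
  | C a => simp
  | add p q hp hq => simp only [map_add, hp, hq]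
  | mul_X p i hp => simp only [map_mul, hp, MvPolynomial.aeval_X, MvPolynomial.eval_X]

theorem line_INV {F : Type} [Field F] (W : MvPolynomial (Fin 3) F) (t : F)
    (f : Fin 3 → Polynomial F) :
    Polynomial.eval t (MvPolynomial.aeval f W) =
      MvPolynomial.eval (fun i => Polynomial.eval t (f i)) W := by
  induction W using MvPolynomial.induction_on with
  | C a => simp
  | add p q hp hq => simp only [map_add, Polynomial.eval_add, hp, hq]
  | mul_X p i hp =>
    simp only [map_mul, Polynomial.eval_mul, hp, MvPolynomial.aeval_X, MvPolynomial.eval_X]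

theorem INV_pf : INV_st := by
  intro F _ _ W h
  refine MvPolynomial.funext fun x => ?_
  obtain ⟨d, hd⟩ := h (x 1) (x 2)
  set g : Polynomial F := MvPolynomial.aeval
    ![Polynomial.C (x 0), Polynomial.C (x 1) * Polynomial.X, Polynomial.C (x 2) * Polynomial.X] W
    with hg
  have e0 : ∀ t, g.eval t = MvPolynomial.eval ![x 0, x 1 * t, x 2 * t] W := fun t => by
    rw [hg, line_INV]
    congr 2
    funext i
    fin_cases i <;> simp
  have e1 : Polynomial.taylor 1 g = d • g := Polynomial.funext fun t => by
    have := congrArg (MvPolynomial.eval ![x 0, x 1 * t, x 2 * t]) hd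
    rw [comp_INV, MvPolynomial.smul_eval] at this
    rw [Polynomial.taylor_eval, Polynomial.eval_smul, e0, e0, smul_eq_mul, ← this]
    congr 2
    funext i
    fin_cases i <;> simp [mul_add]
  have e2 : Polynomial.taylor 1 g = g := by
    rcases eq_or_ne g 0 with h0 | h0
    · rw [h0, map_zero]
    · have h1 := congrArg Polynomial.leadingCoeff e1
      rw [Polynomial.leadingCoeff_taylor, Polynomial.smul_eq_C_mul, Polynomial.leadingCoeff_mul,
        Polynomial.leadingCoeff_C] at h1
      have h2 : d = 1 := mul_right_cancel₀ (Polynomial.leadingCoeff_ne_zero.2 h0)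
        (by rw [← h1, one_mul])
      rw [e1, h2, one_smul]
  have e3 := congrArg (Polynomial.eval 0) e2
  rw [Polynomial.taylor_eval, e0, e0] at e3
  rw [comp_INV]
  refine Eq.trans ?_ (e3.trans ?_)
  · congr 2
    funext i
    fin_cases i <;> simp
  · congr 2
    funext i
    fin_cases i <;> simp

end Pool.Agent.MP_3e91a1_nt.CC
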